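import Pool.Agent.helper53.BND.SpecT

/-!
# Row TCY: the means are Cauchy sequences
-/

set_option autoImplicit false

open scoped Topology
open Finset Filter

namespace Pool.Agent.BND

open Pool.Agent.CZ Pool.Agent.PV Pool.Agent.PVH

theorem TCY (hTDN : TDN_stmt) (hTSP : TSP_stmt) (hTLL : TLL_stmt) (hTLB : TLB_stmt) : TCY_stmt := by
  intro B M hB x hx f ε hε
  obtain ⟨k, F, f', C, hC, -, hFb, hf', hff'⟩ := hTDN B M hB f (ε / 6) (by positivity)
  obtain ⟨d, hd⟩ := exists_pow_lt_of_lt_one (show (0 : ℝ) < ε / (12 * C) by positivity)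
    (show (1 / 2 : ℝ) < 1 by norm_num)
  have hd2 : 2 * C * (1 / 2) ^ (k + d) ≤ ε / 6 := by
    have h1 : (1 / 2 : ℝ) ^ (k + d) ≤ (1 / 2) ^ d :=
      pow_le_pow_of_le_one (by norm_num) (by norm_num) (by omega)
    have h2 : 2 * C * (1 / 2 : ℝ) ^ (k + d) ≤ 2 * C * (ε / (12 * C)) :=
      mul_le_mul_of_nonneg_left (h1.trans hd.le) (by positivity)
    refine h2.trans (le_of_eq ?_)
    field_simp
    norm_num
  have key : ∀ m, k + d ≤ m → ∀ r, IsWt B M r → |B.lev x r m f - B.av r k d F| ≤ ε / 3 := by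
    intro m hm r hr
    obtain ⟨j, rfl⟩ := Nat.exists_eq_add_of_le hm
    have h1 := (hTLB B M x r hr (k + d + j)).2.2.2.2 f f' (ε / 6) hff'
    have h2 := hTLL B M hB x hx r k F f' hf' (d + j)
    have h3 := hTSP B M hB r hr k F C hC hFb d j
    rw [← add_assoc] at h2
    rw [h2] at h1
    have h4 := abs_le.mp h1
    have h5 := abs_le.mp (h3.trans hd2)
    rw [abs_le]
    constructor <;> linarith [h4.1, h4.2, h5.1, h5.2]
  refine ⟨k + d, fun m m' hm hm' r hr => ?_⟩
  have h1 := abs_le.mp (key m hm r hr)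
  have h2 := abs_le.mp (key m' hm' r hr)
  rw [abs_le]
  constructor <;> linarith [h1.1, h1.2, h2.1, h2.2]

end Pool.Agent.BND
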